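import Pool.Agent.Lib.MP_38cb75_co.Start

set_option autoImplicit false

namespace Pool.Agent.Results.MP_38cb75_co.LargeRatio

open Pool.MP_38cb75_co.GT

/-- Let `r₀ = -1/2 - (3/2) log₂ (1 - 2^(-1/3)) = 2.9157...`.  For every real `c < r₀` there is `d₀`
such that for all `d ≥ d₀` and all `n` with `d < n ≤ c d` the worst case number of tests for exactly
`d` defective items among `n` items is `n - 1`. -/
theorem result :
    (2915 : ℝ) / 1000 < -(1 / 2) - (3 / 2) * Real.logb 2 (1 - (2 : ℝ) ^ (-(1 : ℝ) / 3)) ∧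
    ∀ c : ℝ, c < -(1 / 2) - (3 / 2) * Real.logb 2 (1 - (2 : ℝ) ^ (-(1 : ℝ) / 3)) →
      ∃ d₀ : ℕ, ∀ d n : ℕ, d₀ ≤ d → d < n → (n : ℝ) ≤ c * d →
        sInf {k : ℕ | ∃ f : (Fin k → Bool) → Fin k → Finset (Fin n),
          (∀ h h' : Fin k → Bool, ∀ i : Fin k,
              (∀ j : Fin k, j < i → h j = h' j) → f h i = f h' i) ∧
          ∀ D D' : Finset (Fin n), D.card = d → D'.card = d →
            ∀ t : Fin k → Bool,
              (∀ i : Fin k, t i = decide ((f t i ∩ D).Nonempty)) →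
              (∀ i : Fin k, t i = decide ((f t i ∩ D').Nonempty)) →
              D = D'} = n - 1 := by
  have hr : -(1 / 2) - (3 / 2) * Real.logb 2 (1 - (2 : ℝ) ^ (-(1 : ℝ) / 3)) = r₀ := by
    unfold r₀ β₀ p₀
    ring
  rw [hr]
  exact ⟨r₀_lower, fun c hc => final hc⟩

end Pool.Agent.Results.MP_38cb75_co.LargeRatio
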