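import Pool.Agent.Lib.MP_38cb75_co_P.Main

set_option autoImplicit false

namespace Pool.Agent.Results.MP_38cb75_co.PairTests

open Pool.MP_38cb75_co.P2

/-- Tests of size at most two: for all `0 < d < n` the worst case number of adaptive tests, each of
at most two items, for exactly `d` defective items among `n` items is `n - 1` if `n ≤ 3 d` and
`⌊(n + 3 d) / 2⌋ - 1` if `n > 3 d`. -/
theorem result (d n : ℕ) (hd : 0 < d) (hdn : d < n) :
    sInf {k : ℕ | ∃ f : (Fin k → Bool) → Fin k → Finset (Fin n),
      (∀ h : Fin k → Bool, ∀ i : Fin k, (f h i).card ≤ 2) ∧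
      (∀ h h' : Fin k → Bool, ∀ i : Fin k,
          (∀ j : Fin k, j < i → h j = h' j) → f h i = f h' i) ∧
      ∀ D D' : Finset (Fin n), D.card = d → D'.card = d →
        ∀ t : Fin k → Bool,
          (∀ i : Fin k, t i = decide ((f t i ∩ D).Nonempty)) →
          (∀ i : Fin k, t i = decide ((f t i ∩ D').Nonempty)) →
          D = D'} = if n ≤ 3 * d then n - 1 else (n + 3 * d) / 2 - 1 :=
  final d n hd hdn

end Pool.Agent.Results.MP_38cb75_co.PairTests
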